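import Pool.Agent.E8helper27.SP.Core

/-! # Superpatterns on few letters are long -/

set_option autoImplicit false

namespace Pool.Agent.E8helper27.SP

open Finset

lemma exists_u {k n r : ℕ} (σ : Fin n → Fin r) (g : Fin k → Fin r) (hg : Function.Injective g) :
    ∃ u : ℕ → Option (Fin k), ∀ (i : Fin n) (a : Fin k), σ i = g a → u i = some a := by
  classical
  refine ⟨fun q => if hq : q < n then (if h : ∃ a, g a = σ ⟨q, hq⟩ then some h.choose else none) else none, ?_⟩
  intro i a h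
  have h1 : ∃ b, g b = σ ⟨i.val, i.2⟩ := ⟨a, h.symm⟩
  simp only
  rw [dif_pos i.2, dif_pos h1]
  congr 1
  apply hg
  rw [h1.choose_spec]
  exact h

lemma emb_of {k n r : ℕ} (σ : Fin n → Fin r) (g : Fin k → Fin r) (u : ℕ → Option (Fin k))
    (hu : ∀ (i : Fin n) (a : Fin k), σ i = g a → u i = some a) (τ : Equiv.Perm (Fin k)) (i : Fin k → Fin n)
    (hi : StrictMono i) (h : ∀ j, σ (i j) = g (τ j)) : Emb u n 0 (List.ofFn τ) := by
  refine ⟨fun m => if hm : m < k then (i ⟨m, hm⟩).val else 0, ?_, ?_⟩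
  · intro m hm
    have hm' : m < k := by rwa [List.length_ofFn] at hm
    simp only
    rw [dif_pos hm', List.getElem?_eq_getElem hm, List.getElem_ofFn]
    exact ⟨Nat.zero_le _, (i ⟨m, hm'⟩).2, hu _ _ (h ⟨m, hm'⟩)⟩
  · intro m m' hmm hm'
    rw [List.length_ofFn] at hm'
    simp only
    rw [dif_pos hm', dif_pos (hmm.trans hm')]
    exact hi (show (⟨m, hmm.trans hm'⟩ : Fin k) < ⟨m', hm'⟩ from hmm)

theorem main (k n r : ℕ) (hk : 1 ≤ k) (hkr : k ≤ r) (σ : Fin n → Fin r)
    (hσ : ∀ τ : Equiv.Perm (Fin k), ∃ i : Fin k → Fin n, StrictMono i ∧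
      ∀ j j' : Fin k, τ j < τ j' ↔ σ (i j) < σ (i j')) :
    ((k : ℝ) ^ 2 + k) / 2 -
      3 * Real.sqrt (2 * Real.log (((k : ℝ) + 1) ^ 3 * r.choose k)) * (k * Real.sqrt k) < n := by
  classical
  by_contra hcon
  push Not at hcon
  have hk0 : (1 : ℝ) ≤ k := by exact_mod_cast hk
  have hC : 0 < r.choose k := Nat.choose_pos hkr
  have hC0 : (0 : ℝ) < r.choose k := by exact_mod_cast hC
  have hC1 : (1 : ℝ) ≤ r.choose k := by exact_mod_cast hC
  have hX1 : 1 ≤ ((k : ℝ) + 1) ^ 3 * r.choose k := by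
    have : (1 : ℝ) ≤ ((k : ℝ) + 1) ^ 3 := one_le_pow₀ (by linarith)
    nlinarith
  obtain ⟨t, ht⟩ : ∃ t : ℝ, t = Real.sqrt (2 * Real.log (((k : ℝ) + 1) ^ 3 * r.choose k)) := ⟨_, rfl⟩
  have ht0 : 0 ≤ t := by rw [ht]; exact Real.sqrt_nonneg _
  have hlog : 0 ≤ Real.log (((k : ℝ) + 1) ^ 3 * r.choose k) := Real.log_nonneg hX1
  have ht2 : t ^ 2 / 2 = Real.log (((k : ℝ) + 1) ^ 3 * r.choose k) := by
    rw [ht, Real.sq_sqrt (by positivity)]
    ring
  rw [← ht] at hcon
  have hexp : Real.exp (-(t ^ 2 / 2)) * (((k : ℝ) + 1) ^ 3 * r.choose k) = 1 := by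
    rw [ht2, Real.exp_neg, Real.exp_log (by positivity)]
    field_simp
  -- the embeddings of the sets of letters
  set g : Finset (Fin r) → Fin k → Fin r := fun S =>
    if h : S.card = k then ⇑(S.orderEmbOfFin h) else fun a => ⟨a.val, lt_of_lt_of_le a.2 hkr⟩ with hg
  have hginj : ∀ S, Function.Injective (g S) := by
    intro S
    rw [hg]
    simp only
    split_ifs with h
    · exact (S.orderEmbOfFin h).injective
    · intro a b hab
      apply Fin.ext
      simpa using hab
  set P : Finset (Fin r) → Finset (Equiv.Perm (Fin k)) := fun S =>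
    univ.filter (fun τ => ∃ i : Fin k → Fin n, StrictMono i ∧ ∀ j, σ (i j) = g S (τ j)) with hP
  have hcov : (univ : Finset (Equiv.Perm (Fin k))) ⊆ ((univ : Finset (Fin r)).powersetCard k).biUnion P := by
    intro τ _
    obtain ⟨i, hi, hiso⟩ := hσ τ
    have hinj : Function.Injective (fun j => σ (i j)) := by
      intro j j' hjj
      simp only at hjj
      by_contra hne
      rcases lt_or_gt_of_ne (fun e => hne (τ.injective e) : τ j ≠ τ j') with h | h
      · exact absurd ((hiso j j').1 h) (by rw [hjj]; exact lt_irrefl _)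
      · exact absurd ((hiso j' j).1 h) (by rw [hjj]; exact lt_irrefl _)
    set S : Finset (Fin r) := univ.image (fun j => σ (i j)) with hS
    have hcard : S.card = k := by
      rw [hS, card_image_of_injective _ hinj, card_univ, Fintype.card_fin]
    rw [mem_biUnion]
    refine ⟨S, mem_powersetCard.2 ⟨subset_univ _, hcard⟩, ?_⟩
    rw [hP, mem_filter]
    refine ⟨mem_univ _, i, hi, fun j => ?_⟩
    have h1 : (fun a => σ (i (τ.symm a))) = ⇑(S.orderEmbOfFin hcard) := by
      apply Finset.orderEmbOfFin_unique hcard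
      · intro a
        rw [hS, mem_image]
        exact ⟨τ.symm a, mem_univ _, rfl⟩
      · intro a b hab
        simp only
        rw [← hiso, Equiv.apply_symm_apply, Equiv.apply_symm_apply]
        exact hab
    rw [hg]
    simp only
    rw [dif_pos hcard, ← h1]
    simp only
    rw [Equiv.symm_apply_apply]
  have hPS : ∀ S ∈ (univ : Finset (Fin r)).powersetCard k, ((P S).card : ℝ) ≤
      k.factorial * (Real.exp (-(t ^ 2 / 2)) * (1 + k * (n + 1))) := by
    intro S _
    obtain ⟨u, hu⟩ := exists_u σ (g S) (hginj S)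
    apply core k n hk u t ht0 hcon
    intro τ hτ
    rw [hP, mem_filter] at hτ
    obtain ⟨_, i, hi, h⟩ := hτ
    exact emb_of σ (g S) u hu τ i hi h
  have h1 := (card_le_card hcov).trans card_biUnion_le
  rw [card_univ, Fintype.card_perm, Fintype.card_fin] at h1
  have h2 : (k.factorial : ℝ) ≤ ∑ S ∈ (univ : Finset (Fin r)).powersetCard k, ((P S).card : ℝ) := by
    exact_mod_cast h1
  have h3 := h2.trans (sum_le_sum hPS)
  rw [sum_const, card_powersetCard, card_univ, Fintype.card_fin, nsmul_eq_mul] at h3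
  have hf : (0 : ℝ) < k.factorial := by exact_mod_cast Nat.factorial_pos k
  have h4 : (1 : ℝ) ≤ (r.choose k : ℝ) * (Real.exp (-(t ^ 2 / 2)) * (1 + k * (n + 1))) := by
    have h5 : (k.factorial : ℝ) * 1 ≤ k.factorial *
        ((r.choose k : ℝ) * (Real.exp (-(t ^ 2 / 2)) * (1 + k * (n + 1)))) := by
      refine (le_of_eq (mul_one _)).trans (h3.trans (le_of_eq ?_))
      ring
    exact le_of_mul_le_mul_left h5 hf
  have hnk : (n : ℝ) ≤ (k : ℝ) ^ 2 := by
    have h6 : 0 ≤ 3 * t * (k * Real.sqrt k) := by positivity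
    nlinarith
  have h5 : (1 : ℝ) + k * (n + 1) < ((k : ℝ) + 1) ^ 3 := by
    have h6 : (k : ℝ) * (n + 1) ≤ k * (k ^ 2 + 1) := mul_le_mul_of_nonneg_left (by linarith) (by linarith)
    nlinarith
  have h6 : (r.choose k : ℝ) * (Real.exp (-(t ^ 2 / 2)) * (1 + k * (n + 1))) <
      (r.choose k : ℝ) * (Real.exp (-(t ^ 2 / 2)) * ((k : ℝ) + 1) ^ 3) := by
    apply mul_lt_mul_of_pos_left _ hC0
    exact mul_lt_mul_of_pos_left h5 (Real.exp_pos _)
  have h7 : (r.choose k : ℝ) * (Real.exp (-(t ^ 2 / 2)) * ((k : ℝ) + 1) ^ 3) = 1 := by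
    refine Eq.trans ?_ hexp
    ring
  linarith

/-- the word `1 2 ... k` repeated `k` times contains all permutations -/
theorem exists_superpattern (k r : ℕ) (hkr : k ≤ r) : ∃ (n : ℕ) (σ : Fin n → Fin r),
    ∀ τ : Equiv.Perm (Fin k), ∃ i : Fin k → Fin n, StrictMono i ∧
      ∀ j j' : Fin k, τ j < τ j' ↔ σ (i j) < σ (i j') := by
  rcases Nat.eq_zero_or_pos k with hk | hk
  · subst hk
    exact ⟨0, fun i => i.elim0, fun τ => ⟨fun j => j.elim0, fun j => j.elim0, fun j => j.elim0⟩⟩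
  refine ⟨k * k, fun i => ⟨i.val % k, lt_of_lt_of_le (Nat.mod_lt _ hk) hkr⟩, fun τ => ?_⟩
  have hlt : ∀ j : Fin k, j.val * k + (τ j).val < k * k := by
    intro j
    have h1 := j.2
    have h2 := (τ j).2
    calc j.val * k + (τ j).val < j.val * k + k := by omega
      _ = (j.val + 1) * k := by ring
      _ ≤ k * k := Nat.mul_le_mul_right _ h1
  refine ⟨fun j => ⟨j.val * k + (τ j).val, hlt j⟩, ?_, ?_⟩
  · intro j j' hjj
    show j.val * k + (τ j).val < j'.val * k + (τ j').val
    have h2 := (τ j).2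
    have h3 : j.val + 1 ≤ j'.val := hjj
    calc j.val * k + (τ j).val < j.val * k + k := by omega
      _ = (j.val + 1) * k := by ring
      _ ≤ j'.val * k := Nat.mul_le_mul_right _ h3
      _ ≤ _ := Nat.le_add_right _ _
  · intro j j'
    have h1 : ∀ j : Fin k, (j.val * k + (τ j).val) % k = (τ j).val := by
      intro j
      rw [Nat.mul_comm, Nat.mul_add_mod, Nat.mod_eq_of_lt (τ j).2]
    show τ j < τ j' ↔ (j.val * k + (τ j).val) % k < (j'.val * k + (τ j').val) % k
    rw [h1, h1]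
    exact Iff.rfl

end Pool.Agent.E8helper27.SP
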