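import Pool.Agent.E8helper27.SP.Good
import Pool.Agent.R759.Mac

/-! # The count of the permutations with a bad remaining set -/

set_option autoImplicit false

namespace Pool.Agent.E8helper27.SP

open Finset

lemma exp_neg_le (y : ℝ) (hy : 0 ≤ y) : Real.exp (-y) ≤ 1 - y + y ^ 2 / 2 := by
  have h1 := Real.quadratic_le_exp_of_nonneg hy
  have h2 : 0 < 1 + y + y ^ 2 / 2 := by positivity
  have h3 : Real.exp (-y) * Real.exp y = 1 := by rw [← Real.exp_add]; simp
  have h4 : 0 < Real.exp (-y) := Real.exp_pos _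
  have h5 : Real.exp (-y) * (1 + y + y ^ 2 / 2) ≤ 1 :=
    (mul_le_mul_of_nonneg_left h1 h4.le).trans h3.le
  have h6 : (1 : ℝ) ≤ (1 - y + y ^ 2 / 2) * (1 + y + y ^ 2 / 2) := by
    have : (1 - y + y ^ 2 / 2) * (1 + y + y ^ 2 / 2) = 1 + y ^ 4 / 4 := by ring
    rw [this]
    have : 0 ≤ y ^ 4 := by positivity
    linarith
  exact le_of_mul_le_mul_right (h5.trans h6) h2

/-- sums of exponentials over a set on which the waiting times are large on average -/
lemma sum_exp_le {A : Type*} (R : Finset A) (d : A → ℝ) (k s T : ℝ) (hs : 0 ≤ s)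
    (hd0 : ∀ a ∈ R, 0 ≤ d a) (hdk : ∀ a ∈ R, d a ≤ k) (hT : T ≤ ∑ a ∈ R, d a) :
    ∑ a ∈ R, Real.exp (-(s * d a)) ≤ R.card - s * T + s ^ 2 * k ^ 2 / 2 * R.card := by
  have h1 : ∀ a ∈ R, Real.exp (-(s * d a)) ≤ 1 - s * d a + s ^ 2 * k ^ 2 / 2 := by
    intro a ha
    refine (exp_neg_le _ (mul_nonneg hs (hd0 a ha))).trans ?_
    have h2 : (s * d a) ^ 2 ≤ s ^ 2 * k ^ 2 := by
      rw [mul_pow]
      exact mul_le_mul_of_nonneg_left (pow_le_pow_left₀ (hd0 a ha) (hdk a ha) 2) (sq_nonneg _)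
    linarith
  refine (sum_le_sum h1).trans ?_
  rw [sum_add_distrib, sum_sub_distrib, ← mul_sum]
  simp only [sum_const, nsmul_eq_mul, mul_one]
  have := mul_le_mul_of_nonneg_left hT hs
  linarith

/-- few sets of `r` letters have a small sum of waiting times -/
lemma bad_subsets {k : ℕ} (hk : 1 ≤ k) (d : Fin k → ℝ) (hd0 : ∀ a, 0 ≤ d a) (hdk : ∀ a, d a ≤ k)
    (hsum : (k : ℝ) * (k + 1) / 2 ≤ ∑ a, d a) (r : ℕ) (hr : 1 ≤ r) (t : ℝ) (ht : 0 ≤ t) :
    ((((univ : Finset (Fin k)).powersetCard r).filter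
      (fun R => ∑ a ∈ R, d a < r * (k + 1) / 2 - t * k * Real.sqrt r)).card : ℝ) ≤
      k.choose r * Real.exp (-(t ^ 2 / 2)) := by
  classical
  have hk0 : (0 : ℝ) < k := by exact_mod_cast hk
  have hr0 : (0 : ℝ) < r := by exact_mod_cast hr
  have hsr : 0 < Real.sqrt r := Real.sqrt_pos.2 hr0
  have hsq : Real.sqrt r * Real.sqrt r = r := Real.mul_self_sqrt hr0.le
  obtain ⟨l, hl⟩ : ∃ l : ℝ, l = t / (k * Real.sqrt r) := ⟨_, rfl⟩
  have hl0 : 0 ≤ l := by rw [hl]; positivity
  have hlk : l * (k * Real.sqrt r) = t := by rw [hl]; field_simp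
  set B := ((univ : Finset (Fin k)).powersetCard r).filter
      (fun R => ∑ a ∈ R, d a < r * (k + 1) / 2 - t * k * Real.sqrt r) with hB
  -- lower bound of the symmetric function
  have h1 : (B.card : ℝ) * Real.exp (-(l * (r * (k + 1) / 2 - t * k * Real.sqrt r))) ≤
      Pool.Agent.R759.ES univ r (fun a => Real.exp (-(l * d a))) := by
    unfold Pool.Agent.R759.ES
    have h2 : ∑ R ∈ B, Real.exp (-(l * (r * (k + 1) / 2 - t * k * Real.sqrt r))) ≤
        ∑ R ∈ B, ∏ a ∈ R, Real.exp (-(l * d a)) := by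
      apply sum_le_sum
      intro R hR
      rw [hB, mem_filter] at hR
      rw [← Real.exp_sum]
      apply Real.exp_le_exp.2
      rw [sum_neg_distrib, ← mul_sum]
      have := mul_le_mul_of_nonneg_left hR.2.le hl0
      linarith
    rw [sum_const, nsmul_eq_mul] at h2
    refine h2.trans ?_
    apply sum_le_sum_of_subset_of_nonneg (filter_subset _ _)
    intro R _ _
    exact prod_nonneg fun a _ => (Real.exp_pos _).le
  -- upper bound of the symmetric function
  have h2 : Pool.Agent.R759.ES univ r (fun a => Real.exp (-(l * d a))) ≤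
      (k.choose r : ℝ) * Real.exp (r * (-(l * (k + 1) / 2) + l ^ 2 * k ^ 2 / 2)) := by
    have h3 := Pool.Agent.R759.maclaurin (univ : Finset (Fin k)) (fun a => Real.exp (-(l * d a)))
      (fun a _ => (Real.exp_pos _).le) r
    rw [card_univ, Fintype.card_fin] at h3
    refine h3.trans ?_
    apply mul_le_mul_of_nonneg_left _ (Nat.cast_nonneg _)
    rw [Real.exp_nat_mul]
    apply pow_le_pow_left₀ (div_nonneg (sum_nonneg fun a _ => (Real.exp_pos _).le) hk0.le)
    rw [div_le_iff₀ hk0]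
    have h4 := sum_exp_le (univ : Finset (Fin k)) d k l _ hl0 (fun a _ => hd0 a) (fun a _ => hdk a) hsum
    rw [card_univ, Fintype.card_fin] at h4
    refine h4.trans ?_
    have h5 := Real.add_one_le_exp (-(l * (k + 1) / 2) + l ^ 2 * k ^ 2 / 2)
    have h6 := mul_le_mul_of_nonneg_right h5 hk0.le
    refine le_trans (le_of_eq ?_) h6
    ring
  have h3 := h1.trans h2
  have h4 : Real.exp (-(l * (r * (k + 1) / 2 - t * k * Real.sqrt r))) *
      Real.exp (l * (r * (k + 1) / 2 - t * k * Real.sqrt r)) = 1 := by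
    rw [← Real.exp_add]; simp
  have h5 : (B.card : ℝ) ≤ (k.choose r : ℝ) * Real.exp (r * (-(l * (k + 1) / 2) + l ^ 2 * k ^ 2 / 2)) *
      Real.exp (l * (r * (k + 1) / 2 - t * k * Real.sqrt r)) := by
    calc (B.card : ℝ) = B.card * (Real.exp (-(l * (r * (k + 1) / 2 - t * k * Real.sqrt r))) *
          Real.exp (l * (r * (k + 1) / 2 - t * k * Real.sqrt r))) := by rw [h4, mul_one]
      _ = B.card * Real.exp (-(l * (r * (k + 1) / 2 - t * k * Real.sqrt r))) *
          Real.exp (l * (r * (k + 1) / 2 - t * k * Real.sqrt r)) := by ring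
      _ ≤ _ := mul_le_mul_of_nonneg_right h3 (Real.exp_pos _).le
  refine h5.trans (le_of_eq ?_)
  rw [mul_assoc, ← Real.exp_add]
  congr 2
  have h6 : l * (t * k * Real.sqrt r) = t ^ 2 := by
    calc l * (t * k * Real.sqrt r) = l * (k * Real.sqrt r) * t := by ring
      _ = t ^ 2 := by rw [hlk]; ring
  have h7 : l ^ 2 * k ^ 2 * r = t ^ 2 := by
    calc l ^ 2 * k ^ 2 * r = l ^ 2 * k ^ 2 * (Real.sqrt r * Real.sqrt r) := by rw [hsq]
      _ = (l * (k * Real.sqrt r)) ^ 2 := by ring
      _ = t ^ 2 := by rw [hlk]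
  have h8 : r * (-(l * (k + 1) / 2) + l ^ 2 * k ^ 2 / 2) + l * (r * (k + 1) / 2 - t * k * Real.sqrt r) =
      (l ^ 2 * k ^ 2 * r) / 2 - l * (t * k * Real.sqrt r) := by ring
  rw [h8, h6, h7]
  ring

/-- the number of permutations with a prescribed image of a set -/
lemma card_perm_image {k : ℕ} (J R : Finset (Fin k)) (h : J.card = R.card) :
    (univ.filter (fun τ : Equiv.Perm (Fin k) => J.image τ = R)).card ≤
      J.card.factorial * (k - J.card).factorial := by
  classical
  rw [← Fintype.card_subtype]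
  have hmem : ∀ τ : {τ : Equiv.Perm (Fin k) // J.image τ = R}, ∀ j : Fin k, τ.1 j ∈ R ↔ j ∈ J := by
    intro τ j
    have e1 : τ.1 j ∈ R ↔ τ.1 j ∈ J.image τ.1 := by
      constructor
      · intro hh
        rw [τ.2]
        exact hh
      · intro hh
        rw [τ.2] at hh
        exact hh
    rw [e1, mem_image]
    constructor
    · rintro ⟨j', hj', e⟩
      rwa [← τ.1.injective e]
    · intro hj
      exact ⟨j, hj, rfl⟩
  let f : {τ : Equiv.Perm (Fin k) // J.image τ = R} →
      ({j // j ∈ J} ↪ {a // a ∈ R}) × ({j // j ∉ J} ↪ {a // a ∉ R}) := fun τ =>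
    (⟨fun j => ⟨τ.1 j.1, (hmem τ j.1).2 j.2⟩, fun j j' hj => by
        apply Subtype.ext
        exact τ.1.injective (congrArg Subtype.val hj)⟩,
      ⟨fun j => ⟨τ.1 j.1, fun hc => j.2 ((hmem τ j.1).1 hc)⟩, fun j j' hj => by
        apply Subtype.ext
        exact τ.1.injective (congrArg Subtype.val hj)⟩)
  have hf : Function.Injective f := by
    intro τ τ' hττ
    apply Subtype.ext
    apply Equiv.ext
    intro j
    by_cases hj : j ∈ J
    · have h1 := congrArg (fun x => (x.1 ⟨j, hj⟩).1) hττ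
      exact h1
    · have h1 := congrArg (fun x => (x.2 ⟨j, hj⟩).1) hττ
      exact h1
  have h1 := Fintype.card_le_of_injective f hf
  rw [Fintype.card_prod, Fintype.card_embedding_eq, Fintype.card_embedding_eq, Fintype.card_coe,
    Fintype.card_coe] at h1
  have h2 : Fintype.card {j // j ∉ J} = k - J.card := by
    rw [Fintype.card_subtype_compl, Fintype.card_fin, Fintype.card_coe]
  have h3 : Fintype.card {j // j ∉ R} = k - J.card := by
    rw [Fintype.card_subtype_compl, Fintype.card_fin, Fintype.card_coe, h]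
  rw [h2, h3, ← h, Nat.descFactorial_self, Nat.descFactorial_self] at h1
  exact h1

end Pool.Agent.E8helper27.SP
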