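import Pool.Agent.E8helper27.SP.Bad

/-! # Few permutations occur in a short word -/

set_option autoImplicit false

namespace Pool.Agent.E8helper27.SP

open Finset

lemma sum_inv_sqrt (k : ℕ) : ∑ j ∈ range k, 1 / Real.sqrt ((j + 1 : ℕ) : ℝ) ≤ 2 * Real.sqrt k := by
  induction k with
  | zero => simp
  | succ k ih =>
    rw [sum_range_succ]
    refine (add_le_add_left ih _).trans ?_
    have h1 : (0 : ℝ) < ((k + 1 : ℕ) : ℝ) := by positivity
    have ha : 0 < Real.sqrt ((k + 1 : ℕ) : ℝ) := Real.sqrt_pos.2 h1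
    have hb : 0 ≤ Real.sqrt (k : ℝ) := Real.sqrt_nonneg _
    have ha2 : Real.sqrt ((k + 1 : ℕ) : ℝ) * Real.sqrt ((k + 1 : ℕ) : ℝ) = k + 1 := by
      rw [Real.mul_self_sqrt h1.le]; push_cast; ring
    have hb2 : Real.sqrt (k : ℝ) * Real.sqrt (k : ℝ) = k := Real.mul_self_sqrt (Nat.cast_nonneg _)
    generalize Real.sqrt ((k + 1 : ℕ) : ℝ) = a at *
    generalize Real.sqrt (k : ℝ) = b at *
    have h3 : 1 / a ≤ 2 * a - 2 * b := by
      rw [div_le_iff₀ ha]
      nlinarith [sq_nonneg (a - b)]
    linarith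

/-- the set of the letters from the place `i` on -/
def J (k i : ℕ) : Finset (Fin k) := univ.filter (fun j => i ≤ j.val)

lemma card_J (k i : ℕ) : (J k i).card = k - i := by
  have h1 : (J k i).image Fin.val = Ico i k := by
    ext x
    rw [mem_image, mem_Ico]
    constructor
    · rintro ⟨j, hj, rfl⟩
      rw [J, mem_filter] at hj
      exact ⟨hj.2, j.2⟩
    · rintro ⟨h1, h2⟩
      refine ⟨⟨x, h2⟩, ?_, rfl⟩
      rw [J, mem_filter]
      exact ⟨mem_univ _, h1⟩
  rw [← card_image_of_injective _ Fin.val_injective, h1, Nat.card_Ico]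

lemma drop_toFinset {k : ℕ} (τ : Equiv.Perm (Fin k)) (i : ℕ) :
    ((List.ofFn τ).drop i).toFinset = (J k i).image τ := by
  ext a
  rw [List.mem_toFinset, List.mem_iff_getElem, mem_image]
  constructor
  · rintro ⟨m, hm, rfl⟩
    rw [List.length_drop, List.length_ofFn] at hm
    refine ⟨⟨i + m, by omega⟩, ?_, ?_⟩
    · rw [J, mem_filter]
      exact ⟨mem_univ _, Nat.le_add_right _ _⟩
    · rw [List.getElem_drop, List.getElem_ofFn]
  · rintro ⟨j, hj, rfl⟩
    rw [J, mem_filter] at hj
    refine ⟨j.val - i, ?_, ?_⟩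
    · rw [List.length_drop, List.length_ofFn]
      have := j.2
      omega
    · rw [List.getElem_drop, List.getElem_ofFn]
      congr 1
      apply Fin.ext
      show i + (j.val - i) = j.val
      omega

theorem core (k n : ℕ) (hk : 1 ≤ k) (u : ℕ → Option (Fin k)) (t : ℝ) (ht : 0 ≤ t)
    (hn : (n : ℝ) ≤ ((k : ℝ) ^ 2 + k) / 2 - 3 * t * (k * Real.sqrt k)) (P : Finset (Equiv.Perm (Fin k)))
    (hP : ∀ τ ∈ P, Emb u n 0 (List.ofFn τ)) :
    (P.card : ℝ) ≤ k.factorial * (Real.exp (-(t ^ 2 / 2)) * (1 + k * (n + 1))) := by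
  classical
  have hk0 : (0 : ℝ) < k := by exact_mod_cast hk
  have hsk : 0 < Real.sqrt k := Real.sqrt_pos.2 hk0
  have hsk2 : Real.sqrt k * Real.sqrt k = k := Real.mul_self_sqrt hk0.le
  obtain ⟨s, hs⟩ : ∃ s : ℝ, s = t / (k * Real.sqrt k) := ⟨_, rfl⟩
  have hs0 : 0 ≤ s := by rw [hs]; positivity
  have hst : s * (k * Real.sqrt k) = t := by rw [hs]; field_simp
  set Good : Finset (Fin k) → Prop := fun R => ∀ p ≤ n,
    (R.card : ℝ) * (k + 1) / 2 - t * k * Real.sqrt R.card ≤ ∑ a ∈ R, (D u k p a : ℝ) with hGood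
  set M : ℕ → ℝ := fun r => r * Real.exp (-(s * (k + 1) / 2) + s * t * k * (1 / Real.sqrt r) + s ^ 2 * k ^ 2 / 2)
    with hM
  have hDk : ∀ p (a : Fin k), (D u k p a : ℝ) ≤ k := fun p a => by exact_mod_cast D_le u k p a
  have hM0 : ∀ j, 0 ≤ M j := fun j => by rw [hM]; positivity
  have hMb : ∀ R : Finset (Fin k), Good R → ∀ p ≤ n, ∑ a ∈ R, Real.exp (-(s * D u k p a)) ≤ M R.card := by
    intro R hR p hp
    have h1 := sum_exp_le R (fun a => (D u k p a : ℝ)) k s _ hs0 (fun a _ => Nat.cast_nonneg _)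
      (fun a _ => hDk p a) (hR p hp)
    refine h1.trans ?_
    rcases Nat.eq_zero_or_pos R.card with h0 | h0
    · rw [hM]
      simp only
      rw [h0]
      simp
    · have hr : (0 : ℝ) < R.card := by exact_mod_cast h0
      have hsr : 0 < Real.sqrt (R.card : ℝ) := Real.sqrt_pos.2 hr
      have hsr2 : Real.sqrt (R.card : ℝ) * Real.sqrt (R.card : ℝ) = R.card := Real.mul_self_sqrt hr.le
      have h2 := Real.add_one_le_exp (-(s * (k + 1) / 2) + s * t * k * (1 / Real.sqrt (R.card : ℝ)) +
        s ^ 2 * k ^ 2 / 2)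
      have h3 := mul_le_mul_of_nonneg_left h2 hr.le
      refine le_trans (le_of_eq ?_) h3
      have h4 : (R.card : ℝ) * (1 / Real.sqrt (R.card : ℝ)) = Real.sqrt (R.card : ℝ) := by
        rw [mul_one_div, div_eq_iff hsr.ne', hsr2]
      have h5 : (R.card : ℝ) * (-(s * (k + 1) / 2) + s * t * k * (1 / Real.sqrt (R.card : ℝ)) +
          s ^ 2 * k ^ 2 / 2 + 1) = -(s * (R.card * (k + 1) / 2)) +
          s * t * k * ((R.card : ℝ) * (1 / Real.sqrt (R.card : ℝ))) + s ^ 2 * k ^ 2 / 2 * R.card + R.card := by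
        ring
      rw [h5, h4]
      ring
  -- the good permutations
  have hgood : ((P.filter (fun τ : Equiv.Perm (Fin k) => ∀ i < k, Good ((List.ofFn τ).drop i).toFinset)).card : ℝ) ≤
      k.factorial * Real.exp (-(t ^ 2 / 2)) := by
    have h1 := good_count u n k s hs0 Good M hM0 hMb k 0
      ((P.filter (fun τ : Equiv.Perm (Fin k) => ∀ i < k, Good ((List.ofFn τ).drop i).toFinset)).image
        (fun τ : Equiv.Perm (Fin k) => List.ofFn τ)) univ (Nat.zero_le _) (by rw [card_univ, Fintype.card_fin]) (by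
        intro l hl
        rw [mem_image] at hl
        obtain ⟨τ, hτ, rfl⟩ := hl
        rw [mem_filter] at hτ
        refine ⟨List.nodup_ofFn.2 τ.injective, ?_, hP τ hτ.1, ?_⟩
        · have := drop_toFinset τ 0
          rw [List.drop_zero] at this
          rw [this]
          ext a
          simp only [mem_univ, iff_true, mem_image]
          refine ⟨τ.symm a, ?_, by simp⟩
          rw [J, mem_filter]
          exact ⟨mem_univ _, Nat.zero_le _⟩
        · intro i hi
          rw [List.length_ofFn] at hi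
          exact hτ.2 i hi)
    rw [card_image_of_injective _ (fun τ τ' h => Equiv.ext fun x => congrFun (List.ofFn_injective h) x)] at h1
    refine h1.trans ?_
    have h2 : ∏ j ∈ range k, M (j + 1) = k.factorial * Real.exp (∑ j ∈ range k,
        (-(s * (k + 1) / 2) + s * t * k * (1 / Real.sqrt ((j + 1 : ℕ) : ℝ)) + s ^ 2 * k ^ 2 / 2)) := by
      rw [hM, prod_mul_distrib, Real.exp_sum]
      congr 1
      rw [← Finset.prod_range_add_one_eq_factorial]
      push_cast
      rfl
    rw [h2, mul_left_comm, ← Real.exp_add]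
    apply mul_le_mul_of_nonneg_left _ (Nat.cast_nonneg _)
    apply Real.exp_le_exp.2
    rw [sum_add_distrib, sum_add_distrib, ← mul_sum]
    simp only [sum_const, card_range, nsmul_eq_mul, Nat.cast_zero, sub_zero]
    have h3 := sum_inv_sqrt k
    have h4 : s * t * k * ∑ j ∈ range k, 1 / Real.sqrt ((j + 1 : ℕ) : ℝ) ≤ s * t * k * (2 * Real.sqrt k) :=
      mul_le_mul_of_nonneg_left h3 (by positivity)
    have h5 : s * t * k * (2 * Real.sqrt k) = 2 * t ^ 2 := by
      calc s * t * k * (2 * Real.sqrt k) = 2 * (s * (k * Real.sqrt k)) * t := by ring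
        _ = 2 * t ^ 2 := by rw [hst]; ring
    have h6 : (k : ℝ) * (s ^ 2 * k ^ 2 / 2) = t ^ 2 / 2 := by
      calc (k : ℝ) * (s ^ 2 * k ^ 2 / 2) = (s ^ 2 * k ^ 2 * (Real.sqrt k * Real.sqrt k)) / 2 := by
            rw [hsk2]; ring
        _ = (s * (k * Real.sqrt k)) ^ 2 / 2 := by ring
        _ = t ^ 2 / 2 := by rw [hst]
    have h7 := mul_le_mul_of_nonneg_left hn hs0
    have h8 : s * (((k : ℝ) ^ 2 + k) / 2 - 3 * t * (k * Real.sqrt k)) = s * ((k : ℝ) ^ 2 + k) / 2 - 3 * t ^ 2 := by
      calc s * (((k : ℝ) ^ 2 + k) / 2 - 3 * t * (k * Real.sqrt k)) =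
          s * ((k : ℝ) ^ 2 + k) / 2 - 3 * t * (s * (k * Real.sqrt k)) := by ring
        _ = s * ((k : ℝ) ^ 2 + k) / 2 - 3 * t ^ 2 := by rw [hst]; ring
    rw [h8] at h7
    have h9 : (k : ℝ) * -(s * (k + 1) / 2) = -(s * ((k : ℝ) ^ 2 + k) / 2) := by ring
    rw [h6, h9]
    linarith
  -- the bad permutations
  have hbad : ((P.filter (fun τ : Equiv.Perm (Fin k) => ¬ ∀ i < k, Good ((List.ofFn τ).drop i).toFinset)).card : ℝ) ≤
      k.factorial * (Real.exp (-(t ^ 2 / 2)) * (k * (n + 1))) := by
    set B : ℕ → ℕ → Finset (Finset (Fin k)) := fun i p =>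
      ((univ : Finset (Fin k)).powersetCard (k - i)).filter
        (fun R => ∑ a ∈ R, (D u k p a : ℝ) < ((k - i : ℕ) : ℝ) * (k + 1) / 2 - t * k * Real.sqrt ((k - i : ℕ) : ℝ))
      with hB
    have hsub : P.filter (fun τ : Equiv.Perm (Fin k) => ¬ ∀ i < k, Good ((List.ofFn τ).drop i).toFinset) ⊆
        (range k).biUnion (fun i => (range (n + 1)).biUnion (fun p => (B i p).biUnion (fun R =>
          univ.filter (fun τ : Equiv.Perm (Fin k) => (J k i).image τ = R)))) := by
      intro τ hτ
      rw [mem_filter] at hτ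
      have h1 := hτ.2
      push Not at h1
      obtain ⟨i, hi, h2⟩ := h1
      rw [hGood] at h2
      simp only at h2
      push Not at h2
      obtain ⟨p, hp, h3⟩ := h2
      rw [drop_toFinset] at h3
      have hc : ((J k i).image τ).card = k - i := by
        rw [card_image_of_injective _ τ.injective, card_J]
      rw [hc] at h3
      rw [mem_biUnion]
      refine ⟨i, mem_range.2 hi, ?_⟩
      rw [mem_biUnion]
      refine ⟨p, mem_range.2 (by omega), ?_⟩
      rw [mem_biUnion]
      refine ⟨(J k i).image τ, ?_, ?_⟩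
      · rw [hB]
        simp only
        rw [mem_filter, mem_powersetCard]
        exact ⟨⟨subset_univ _, hc⟩, h3⟩
      · rw [mem_filter]
        exact ⟨mem_univ _, rfl⟩
    have h1 := (card_le_card hsub).trans card_biUnion_le
    have h2 : ∀ i ∈ range k, ∀ p ∈ range (n + 1), (((B i p).biUnion (fun R =>
          univ.filter (fun τ : Equiv.Perm (Fin k) => (J k i).image τ = R))).card : ℝ) ≤
        k.factorial * Real.exp (-(t ^ 2 / 2)) := by
      intro i hi p hp
      rw [mem_range] at hi
      have h3 : ((B i p).biUnion (fun R =>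
          univ.filter (fun τ : Equiv.Perm (Fin k) => (J k i).image τ = R))).card ≤
          (B i p).card * ((k - i).factorial * i.factorial) := by
        refine card_biUnion_le.trans ?_
        rw [← smul_eq_mul, ← sum_const]
        apply sum_le_sum
        intro R hR
        rw [hB] at hR
        simp only at hR
        rw [mem_filter, mem_powersetCard] at hR
        have h4 := card_perm_image (J k i) R (by rw [card_J, hR.1.2])
        rw [card_J, show k - (k - i) = i by omega] at h4
        exact h4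
      have h4 := bad_subsets hk (fun a => (D u k p a : ℝ)) (fun a => Nat.cast_nonneg _) (fun a => hDk p a)
        (by
          have h5 := sum_D u k p (Fintype.card_fin k)
          have h6 : (k : ℝ) * (k + 1) ≤ 2 * ∑ a : Fin k, (D u k p a : ℝ) := by exact_mod_cast h5
          linarith) (k - i) (by omega) t ht
      have h5 : (((B i p).card * ((k - i).factorial * i.factorial) : ℕ) : ℝ) ≤
          k.factorial * Real.exp (-(t ^ 2 / 2)) := by
        have h6 := Nat.choose_mul_factorial_mul_factorial (show k - i ≤ k by omega)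
        rw [show k - (k - i) = i by omega] at h6
        have h7 : (k.choose (k - i) : ℝ) * ((k - i).factorial * i.factorial) = k.factorial := by
          rw [← mul_assoc]
          exact_mod_cast h6
        push_cast
        have h8 : (0 : ℝ) ≤ ((k - i).factorial : ℝ) * (i.factorial : ℝ) := by positivity
        calc ((B i p).card : ℝ) * (((k - i).factorial : ℝ) * (i.factorial : ℝ))
            ≤ (k.choose (k - i) * Real.exp (-(t ^ 2 / 2))) * (((k - i).factorial : ℝ) * (i.factorial : ℝ)) :=
              mul_le_mul_of_nonneg_right h4 h8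
          _ = (k.choose (k - i) : ℝ) * ((k - i).factorial * i.factorial) * Real.exp (-(t ^ 2 / 2)) := by ring
          _ = _ := by rw [h7]
      exact (by exact_mod_cast h3 : (((B i p).biUnion (fun R =>
          univ.filter (fun τ : Equiv.Perm (Fin k) => (J k i).image τ = R))).card : ℝ) ≤
          (((B i p).card * ((k - i).factorial * i.factorial) : ℕ) : ℝ)).trans h5
    have h3 : ∀ i ∈ range k, (((range (n + 1)).biUnion (fun p => (B i p).biUnion (fun R =>
          univ.filter (fun τ : Equiv.Perm (Fin k) => (J k i).image τ = R)))).card : ℝ) ≤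
        (n + 1) * (k.factorial * Real.exp (-(t ^ 2 / 2))) := by
      intro i hi
      have h4 : (((range (n + 1)).biUnion (fun p => (B i p).biUnion (fun R =>
          univ.filter (fun τ : Equiv.Perm (Fin k) => (J k i).image τ = R)))).card : ℝ) ≤
          ∑ p ∈ range (n + 1), (((B i p).biUnion (fun R =>
          univ.filter (fun τ : Equiv.Perm (Fin k) => (J k i).image τ = R))).card : ℝ) := by
        exact_mod_cast card_biUnion_le
      refine h4.trans ((sum_le_sum (h2 i hi)).trans (le_of_eq ?_))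
      rw [sum_const, card_range, nsmul_eq_mul]
      push_cast
      ring
    have h4 : ((P.filter (fun τ : Equiv.Perm (Fin k) => ¬ ∀ i < k, Good ((List.ofFn τ).drop i).toFinset)).card : ℝ) ≤
        ∑ i ∈ range k, (((range (n + 1)).biUnion (fun p => (B i p).biUnion (fun R =>
          univ.filter (fun τ : Equiv.Perm (Fin k) => (J k i).image τ = R)))).card : ℝ) := by
      exact_mod_cast h1
    refine h4.trans ((sum_le_sum h3).trans (le_of_eq ?_))
    rw [sum_const, card_range, nsmul_eq_mul]
    ring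
  have h1 := card_filter_add_card_filter_not (s := P) (fun τ : Equiv.Perm (Fin k) => ∀ i < k, Good ((List.ofFn τ).drop i).toFinset)
  have h2 : (P.card : ℝ) = ((P.filter (fun τ : Equiv.Perm (Fin k) => ∀ i < k, Good ((List.ofFn τ).drop i).toFinset)).card : ℝ) +
      ((P.filter (fun τ : Equiv.Perm (Fin k) => ¬ ∀ i < k, Good ((List.ofFn τ).drop i).toFinset)).card : ℝ) := by
    exact_mod_cast h1.symm
  rw [h2]
  refine (add_le_add hgood hbad).trans (le_of_eq ?_)
  ring

end Pool.Agent.E8helper27.SP
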