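import Pool.Agent.E8helper27.SP.Wait

/-! # The weighted count of the embedded lists all of whose remaining sets are good -/

set_option autoImplicit false

namespace Pool.Agent.E8helper27.SP

open Finset

variable {A : Type*} [DecidableEq A]

/-- the list `l` occurs as a subsequence of `u` in the positions `p, ..., n - 1` -/
def Emb (u : ℕ → Option A) (n p : ℕ) (l : List A) : Prop :=
  ∃ e : ℕ → ℕ, (∀ i < l.length, p ≤ e i ∧ e i < n ∧ u (e i) = l[i]?) ∧
    ∀ i j, i < j → j < l.length → e i < e j

lemma Emb.tail {u : ℕ → Option A} {n p q : ℕ} {a : A} {l : List A} (h : Emb u n p (a :: l))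
    (hq : ∀ q', p ≤ q' → u q' = some a → q ≤ q') : Emb u n (q + 1) l := by
  obtain ⟨e, h1, h2⟩ := h
  have h0 := h1 0 (by simp)
  refine ⟨fun i => e (i + 1), fun i hi => ?_, fun i j hij hj => ?_⟩
  · have h3 := h1 (i + 1) (by simp; omega)
    have h4 := h2 0 (i + 1) (by omega) (by simp; omega)
    have h5 := hq (e 0) h0.1 (by rw [h0.2.2]; simp)
    refine ⟨?_, h3.2.1, ?_⟩
    · show q + 1 ≤ e (i + 1)
      omega
    · rw [h3.2.2]
      simp
  · exact h2 (i + 1) (j + 1) (by omega) (by simp; omega)

lemma Emb.head {u : ℕ → Option A} {n p : ℕ} {a : A} {l : List A} (h : Emb u n p (a :: l)) :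
    ∃ q, p ≤ q ∧ q < n ∧ u q = some a := by
  obtain ⟨e, h1, h2⟩ := h
  have h0 := h1 0 (by simp)
  exact ⟨e 0, h0.1, h0.2.1, by rw [h0.2.2]; simp⟩

theorem good_count (u : ℕ → Option A) (n k : ℕ) (s : ℝ) (hs : 0 ≤ s) (Good : Finset A → Prop)
    (M : ℕ → ℝ) (hM0 : ∀ j, 0 ≤ M j)
    (hM : ∀ R : Finset A, Good R → ∀ p ≤ n, ∑ a ∈ R, Real.exp (-(s * D u k p a)) ≤ M R.card) :
    ∀ (m p : ℕ) (T : Finset (List A)) (R : Finset A), p ≤ n → R.card = m →
      (∀ l ∈ T, l.Nodup ∧ l.toFinset = R ∧ Emb u n p l ∧ ∀ i < l.length, Good (l.drop i).toFinset) →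
      (T.card : ℝ) ≤ Real.exp (s * (n - p)) * ∏ j ∈ range m, M (j + 1) := by
  intro m
  induction m with
  | zero =>
    intro p T R hp hR hT
    have hR0 : R = ∅ := card_eq_zero.1 hR
    have h1 : T ⊆ {[]} := by
      intro l hl
      have h2 := (hT l hl).2.1
      rw [hR0, List.toFinset_eq_empty_iff] at h2
      rw [h2]
      exact mem_singleton_self _
    have h2 : T.card ≤ 1 := by
      have := card_le_card h1
      rwa [card_singleton] at this
    have h3 : (1 : ℝ) ≤ Real.exp (s * (n - p)) := by
      apply Real.one_le_exp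
      apply mul_nonneg hs
      have : (p : ℝ) ≤ n := by exact_mod_cast hp
      linarith
    rw [range_zero, prod_empty, mul_one]
    exact (by exact_mod_cast h2 : (T.card : ℝ) ≤ 1).trans h3
  | succ m ih =>
    intro p T R hp hR hT
    have hprod : 0 ≤ ∏ j ∈ range m, M (j + 1) := prod_nonneg fun j _ => hM0 _
    rcases T.eq_empty_or_nonempty with hT0 | ⟨l0, hl0⟩
    · rw [hT0, card_empty, Nat.cast_zero]
      exact mul_nonneg (Real.exp_pos _).le (prod_nonneg fun j _ => hM0 _)
    have hlen : ∀ l ∈ T, l.length = m + 1 := by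
      intro l hl
      rw [← List.toFinset_card_of_nodup (hT l hl).1, (hT l hl).2.1, hR]
    have hgood : Good R := by
      have h1 := (hT l0 hl0).2.2.2 0 (by rw [hlen l0 hl0]; omega)
      rwa [List.drop_zero, (hT l0 hl0).2.1] at h1
    -- the lists with a given head
    have hcov : T ⊆ R.biUnion (fun a => T.filter (fun l => l.head? = some a)) := by
      intro l hl
      rw [mem_biUnion]
      have h1 := hlen l hl
      cases l with
      | nil => simp at h1
      | cons a l =>
        refine ⟨a, ?_, ?_⟩
        · rw [← (hT _ hl).2.1]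
          simp
        · rw [mem_filter]
          exact ⟨hl, rfl⟩
    have hpart : ∀ a ∈ R, ((T.filter (fun l => l.head? = some a)).card : ℝ) ≤
        Real.exp (s * (n - p)) * (∏ j ∈ range m, M (j + 1)) * Real.exp (-(s * D u k p a)) := by
      intro a ha
      rcases (T.filter (fun l => l.head? = some a)).eq_empty_or_nonempty with h0 | ⟨l1, hl1⟩
      · rw [h0, card_empty, Nat.cast_zero]
        positivity
      have hcons : ∀ l ∈ T.filter (fun l => l.head? = some a), ∃ l', l = a :: l' := by
        intro l hl
        rw [mem_filter] at hl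
        cases l with
        | nil => simp at hl
        | cons b l' =>
          have : b = a := by simpa using hl.2
          exact ⟨l', by rw [this]⟩
      have hex : ∃ q, p ≤ q ∧ q < n ∧ u q = some a := by
        obtain ⟨l', hl'⟩ := hcons l1 hl1
        rw [mem_filter] at hl1
        have h2 := (hT l1 hl1.1).2.2.1
        rw [hl'] at h2
        exact h2.head
      have hex' : ∃ q, p ≤ q ∧ u q = some a := by
        obtain ⟨q, h1, _, h3⟩ := hex
        exact ⟨q, h1, h3⟩
      classical
      obtain ⟨q, hqdef⟩ : ∃ q, q = Nat.find hex' := ⟨_, rfl⟩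
      have hq1 : p ≤ q ∧ u q = some a := by rw [hqdef]; exact Nat.find_spec hex'
      have hq2 : ∀ q', p ≤ q' → u q' = some a → q ≤ q' := by
        intro q' h1 h2
        rw [hqdef]
        exact Nat.find_min' hex' ⟨h1, h2⟩
      have hqn : q < n := by
        obtain ⟨q', h1, h2, h3⟩ := hex
        exact lt_of_le_of_lt (hq2 q' h1 h3) h2
      have hih := ih (q + 1) ((T.filter (fun l => l.head? = some a)).image List.tail) (R.erase a)
        (by omega) (by rw [card_erase_of_mem ha, hR]; rfl) (by
          intro l' hl'
          rw [mem_image] at hl'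
          obtain ⟨l, hl, rfl⟩ := hl'
          obtain ⟨l'', hl''⟩ := hcons l hl
          subst hl''
          rw [mem_filter] at hl
          obtain ⟨h1, h2, h3, h4⟩ := hT _ hl.1
          rw [List.tail_cons]
          rw [List.nodup_cons] at h1
          refine ⟨h1.2, ?_, h3.tail hq2, ?_⟩
          · rw [← h2, List.toFinset_cons, erase_insert]
            rw [List.mem_toFinset]
            exact h1.1
          · intro i hi
            have := h4 (i + 1) (by simp; omega)
            rwa [List.drop_succ_cons] at this)
      rw [card_image_of_injOn] at hih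
      · refine hih.trans ?_
        have h5 : Real.exp (s * (n - ((q + 1 : ℕ) : ℝ))) ≤
            Real.exp (s * (n - p)) * Real.exp (-(s * D u k p a)) := by
          rw [← Real.exp_add]
          apply Real.exp_le_exp.2
          have h6 := D_le_of u k p q a hq1.2 hq1.1
          have h7 : (D u k p a : ℝ) + p ≤ q + 1 := by
            have : D u k p a + p ≤ q + 1 := by have := hq1.1; omega
            exact_mod_cast this
          push_cast
          nlinarith
        calc Real.exp (s * (n - ((q + 1 : ℕ) : ℝ))) * ∏ j ∈ range m, M (j + 1)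
            ≤ (Real.exp (s * (n - p)) * Real.exp (-(s * D u k p a))) * ∏ j ∈ range m, M (j + 1) :=
              mul_le_mul_of_nonneg_right h5 hprod
          _ = _ := by ring
      · intro l hl l' hl' hll
        obtain ⟨l2, hl2⟩ := hcons l hl
        obtain ⟨l3, hl3⟩ := hcons l' hl'
        subst hl2
        subst hl3
        simpa using hll
    have h1 : (T.card : ℝ) ≤ ∑ a ∈ R, ((T.filter (fun l => l.head? = some a)).card : ℝ) := by
      have := (card_le_card hcov).trans card_biUnion_le
      exact_mod_cast this
    refine h1.trans ((sum_le_sum hpart).trans ?_)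
    rw [← mul_sum, prod_range_succ]
    have h2 := hM R hgood p hp
    rw [hR] at h2
    have h3 : 0 ≤ Real.exp (s * (n - p)) * ∏ j ∈ range m, M (j + 1) := by positivity
    calc Real.exp (s * (n - p)) * (∏ j ∈ range m, M (j + 1)) * ∑ a ∈ R, Real.exp (-(s * D u k p a))
        ≤ Real.exp (s * (n - p)) * (∏ j ∈ range m, M (j + 1)) * M (m + 1) :=
          mul_le_mul_of_nonneg_left h2 h3
      _ = _ := by ring

end Pool.Agent.E8helper27.SP
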