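import Mathlib

/-! # Waiting times in a word and the weighted count of embedded lists -/

set_option autoImplicit false

namespace Pool.Agent.E8helper27.SP

open Finset

variable {A : Type*} [DecidableEq A]

/-- the waiting time (truncated at `k`) for the letter `a` from the position `p` on -/
noncomputable def D (u : ℕ → Option A) (k p : ℕ) (a : A) : ℕ := by
  classical
  exact ((range k).filter (fun L => ∀ q, p ≤ q → q < p + L → u q ≠ some a)).card

lemma D_le (u : ℕ → Option A) (k p : ℕ) (a : A) : D u k p a ≤ k := by
  classical
  unfold D
  refine (card_filter_le _ _).trans ?_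
  rw [card_range]

lemma D_le_of (u : ℕ → Option A) (k p q : ℕ) (a : A) (hq : u q = some a) (hpq : p ≤ q) :
    D u k p a ≤ q + 1 - p := by
  classical
  unfold D
  have h : ((range k).filter (fun L => ∀ q, p ≤ q → q < p + L → u q ≠ some a)) ⊆ range (q + 1 - p) := by
    intro L hL
    rw [mem_filter] at hL
    rw [mem_range]
    by_contra hc
    exact hL.2 q hpq (by omega) hq
  have := card_le_card h
  rwa [card_range] at this

lemma sum_D [Fintype A] (u : ℕ → Option A) (k p : ℕ) (hk : Fintype.card A = k) :
    k * (k + 1) ≤ 2 * ∑ a : A, D u k p a := by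
  classical
  have h1 : ∑ a : A, D u k p a =
      ∑ L ∈ range k, (univ.filter (fun a : A => ∀ q, p ≤ q → q < p + L → u q ≠ some a)).card := by
    unfold D
    simp_rw [card_filter]
    rw [sum_comm]
  have h2 : ∀ L ∈ range k, k - L ≤
      (univ.filter (fun a : A => ∀ q, p ≤ q → q < p + L → u q ≠ some a)).card := by
    intro L hL
    have h3 : (univ.filter (fun a : A => ¬ ∀ q, p ≤ q → q < p + L → u q ≠ some a)).card ≤ L := by
      have h4 : ((univ.filter (fun a : A => ¬ ∀ q, p ≤ q → q < p + L → u q ≠ some a)).image some) ⊆
          (range L).image (fun i => u (p + i)) := by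
        intro o ho
        rw [mem_image] at ho
        obtain ⟨a, ha, rfl⟩ := ho
        rw [mem_filter] at ha
        have := ha.2
        push Not at this
        obtain ⟨q, hq1, hq2, hq3⟩ := this
        rw [mem_image]
        refine ⟨q - p, by rw [mem_range]; omega, ?_⟩
        rw [← hq3]
        congr 1
        omega
      have h5 := (card_le_card h4).trans card_image_le
      rw [card_range, card_image_of_injective _ (Option.some_injective A)] at h5
      exact h5
    have h6 := card_filter_add_card_filter_not (s := (univ : Finset A))
      (fun a : A => ∀ q, p ≤ q → q < p + L → u q ≠ some a)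
    rw [card_univ, hk] at h6
    omega
  rw [h1]
  have h7 : ∑ L ∈ range k, (k - L) ≤ ∑ L ∈ range k,
      (univ.filter (fun a : A => ∀ q, p ≤ q → q < p + L → u q ≠ some a)).card := sum_le_sum h2
  have h8 : ∀ m : ℕ, 2 * ∑ L ∈ range m, (m - L) = m * (m + 1) := by
    intro m
    induction m with
    | zero => simp
    | succ m ih =>
      rw [sum_range_succ']
      have : ∑ L ∈ range m, (m + 1 - (L + 1)) = ∑ L ∈ range m, (m - L) :=
        sum_congr rfl fun L _ => by omega
      rw [this, mul_add, ih]
      ring_nf
      simp
      ring
  have := h8 k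
  omega

end Pool.Agent.E8helper27.SP
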